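import Pool.Agent.Lib.MP_fb520c_co.Poly

/-! Segments and triangles: the axiom of Pasch and separation of non-crossing sets. -/

set_option autoImplicit false

open Set

noncomputable section

namespace Pool.Agent.Lib.MP_fb520c_co.Cov

/-- two segments meet -/
def Cr (a a' b b' : Plane) : Prop := ∃ z, z ∈ segment ℝ a a' ∧ z ∈ segment ℝ b b'

lemma Cr.swap {a a' b b' : Plane} (h : Cr a a' b b') : Cr b b' a a' :=
  let ⟨z, h1, h2⟩ := h; ⟨z, h2, h1⟩

lemma Cr.left {a a' b b' : Plane} (h : Cr a a' b b') : Cr a' a b b' :=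
  let ⟨z, h1, h2⟩ := h; ⟨z, by rwa [segment_symm], h2⟩

lemma Cr.right {a a' b b' : Plane} (h : Cr a a' b b') : Cr a a' b' b :=
  let ⟨z, h1, h2⟩ := h; ⟨z, h1, by rwa [segment_symm]⟩

/-- membership in a triangle -/
def InT (z x y w : Plane) : Prop :=
  ∃ α β γ : ℝ, 0 ≤ α ∧ 0 ≤ β ∧ 0 ≤ γ ∧ α + β + γ = 1 ∧ z = α • x + β • y + γ • w

lemma InT.mem {z x y w : Plane} (h : InT z x y w) {S : Set Plane} (hS : Convex ℝ S)
    (hx : x ∈ S) (hy : y ∈ S) (hw : w ∈ S) : z ∈ S := by
  obtain ⟨α, β, γ, h1, h2, h3, h4, rfl⟩ := h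
  have := hS.sum_mem (t := Finset.univ) (w := ![α, β, γ]) (z := ![x, y, w])
    (fun i _ => by fin_cases i <;> simpa) (by simpa [Fin.sum_univ_three] using h4)
    (fun i _ => by fin_cases i <;> simpa)
  simpa [Fin.sum_univ_three] using this

lemma convex_inT (x y w : Plane) : Convex ℝ {z | InT z x y w} := by
  rintro _ ⟨α, β, γ, h1, h2, h3, h4, rfl⟩ _ ⟨α', β', γ', k1, k2, k3, k4, rfl⟩ s t hs ht hst
  refine ⟨s * α + t * α', s * β + t * β', s * γ + t * γ', by positivity, by positivity,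
    by positivity, by linear_combination s * h4 + t * k4 + hst, ?_⟩
  module

lemma ivt {f : ℝ → ℝ} (hf : Continuous f) (h0 : 0 ≤ f 0) (h1 : f 1 < 0) :
    ∃ t, 0 ≤ t ∧ t ≤ 1 ∧ f t = 0 := by
  obtain ⟨t, ht, e⟩ := intermediate_value_Icc' zero_le_one hf.continuousOn ⟨h1.le, h0⟩
  exact ⟨t, ht.1, ht.2, e⟩

lemma rep (x y w b : Plane) :
    (∃ α β γ : ℝ, α + β + γ = 1 ∧ b = α • x + β • y + γ • w) ∨
    ∃ l m n : ℝ, l + m + n = 0 ∧ 0 ≤ m ∧ (l < 0 ∨ n < 0) ∧ l • x + m • y + n • w = 0 := by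
  by_cases hD : dt (y - x) (w - x) = 0
  · right
    have aux : ∀ l m n : ℝ, l + m + n = 0 → (m ≠ 0 ∨ n ≠ 0) → l • x + m • y + n • w = 0 →
        ∃ l m n : ℝ, l + m + n = 0 ∧ 0 ≤ m ∧ (l < 0 ∨ n < 0) ∧ l • x + m • y + n • w = 0 := by
      intro l m n h1 h2 h3
      have h3' : (-l) • x + (-m) • y + (-n) • w = 0 := by
        rw [← neg_eq_zero, ← h3]; module
      rcases lt_trichotomy m 0 with h | h | h
      · exact ⟨-l, -m, -n, by linarith, by linarith, by
          by_contra k; push Not at k; linarith [k.1, k.2], h3'⟩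
      · refine ⟨l, m, n, h1, h.ge, ?_, h3⟩
        have hn : n ≠ 0 := h2.resolve_left fun k => k h
        rcases lt_or_gt_of_ne hn with k | k
        · exact Or.inr k
        · exact Or.inl (by linarith)
      · exact ⟨l, m, n, h1, h.le, by by_contra k; push Not at k; linarith [k.1, k.2], h3⟩
    simp only [dt, PiLp.sub_apply] at hD
    by_cases h0 : y 0 - x 0 = 0 ∧ w 0 - x 0 = 0
    · by_cases h1 : y 1 - x 1 = 0 ∧ w 1 - x 1 = 0
      · refine aux (-1) 1 0 (by norm_num) (Or.inl one_ne_zero) (plane_ext ?_ ?_) <;> simp <;>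
          linarith [h0.1, h1.1]
      · refine aux (y 1 - w 1) (w 1 - x 1) (-(y 1 - x 1)) (by ring) (by
          by_contra k; push Not at k; exact h1 ⟨by linarith [k.2], k.1⟩) (plane_ext ?_ ?_)
        · simp only [PiLp.add_apply, PiLp.smul_apply, smul_eq_mul, PiLp.zero_apply]
          linear_combination hD
        · simp only [PiLp.add_apply, PiLp.smul_apply, smul_eq_mul, PiLp.zero_apply]
          ring
    · refine aux (y 0 - w 0) (w 0 - x 0) (-(y 0 - x 0)) (by ring) (by
        by_contra k; push Not at k; exact h0 ⟨by linarith [k.2], k.1⟩) (plane_ext ?_ ?_)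
      · simp only [PiLp.add_apply, PiLp.smul_apply, smul_eq_mul, PiLp.zero_apply]
        ring
      · simp only [PiLp.add_apply, PiLp.smul_apply, smul_eq_mul, PiLp.zero_apply]
        linear_combination -hD
  · left
    refine ⟨1 - dt (b - x) (w - x) / dt (y - x) (w - x) - dt (y - x) (b - x) / dt (y - x) (w - x),
      dt (b - x) (w - x) / dt (y - x) (w - x), dt (y - x) (b - x) / dt (y - x) (w - x), by ring,
      plane_ext ?_ ?_⟩ <;>
    · simp only [PiLp.add_apply, PiLp.smul_apply, smul_eq_mul]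
      field_simp
      simp only [dt, PiLp.sub_apply]
      ring

lemma big {α γ l n : ℝ} (h : l < 0 ∨ n < 0) : ∃ M : ℝ, 0 ≤ M ∧ (α + M * l < 0 ∨ γ + M * n < 0) := by
  rcases h with h | h
  · refine ⟨(|α| + 1) / -l, div_nonneg (by positivity) (by linarith), Or.inl ?_⟩
    have : (|α| + 1) / -l * l = -(|α| + 1) := by field_simp [h.ne]
    rw [this]; linarith [le_abs_self α]
  · refine ⟨(|γ| + 1) / -n, div_nonneg (by positivity) (by linarith), Or.inr ?_⟩
    have : (|γ| + 1) / -n * n = -(|γ| + 1) := by field_simp [h.ne]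
    rw [this]; linarith [le_abs_self γ]

lemma mem_seg {x y : Plane} {s t : ℝ} (hs : 0 ≤ s) (ht : 0 ≤ t) (h : s + t = 1) :
    s • x + t • y ∈ segment ℝ x y := ⟨s, t, hs, ht, h, rfl⟩

lemma side3 {x y w u v : Plane} {A B C : ℝ} (es : A + B + C = 1) (ht : min A (min B C) = 0)
    (hp : A • x + B • y + C • w ∈ segment ℝ u v) : Cr x y u v ∨ Cr y w u v ∨ Cr x w u v := by
  have hA : 0 ≤ A := ht.ge.trans (min_le_left _ _)
  have hB : 0 ≤ B := ht.ge.trans ((min_le_right _ _).trans (min_le_left _ _))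
  have hC : 0 ≤ C := ht.ge.trans ((min_le_right _ _).trans (min_le_right _ _))
  rcases min_choice A (min B C) with k | k
  · have : A = 0 := by rw [← k, ht]
    subst this
    refine Or.inr (Or.inl ⟨_, ?_, hp⟩)
    simpa using mem_seg hB hC (by linarith)
  · rcases min_choice B C with k' | k'
    · have : B = 0 := by rw [← k', ← k, ht]
      subst this
      refine Or.inr (Or.inr ⟨_, ?_, hp⟩)
      simpa using mem_seg hA hC (by linarith)
    · have : C = 0 := by rw [← k', ← k, ht]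
      subst this
      refine Or.inl ⟨_, ?_, hp⟩
      simpa using mem_seg hA hB (by linarith)

lemma side2 {x y w u v : Plane} {A B C : ℝ} (es : A + B + C = 1) (ht : min A C = 0) (hB : 0 ≤ B)
    (hp : A • x + B • y + C • w ∈ segment ℝ u v) : Cr x y u v ∨ Cr y w u v := by
  have hA : 0 ≤ A := ht.ge.trans (min_le_left _ _)
  have hC : 0 ≤ C := ht.ge.trans (min_le_right _ _)
  rcases min_choice A C with k | k
  · have : A = 0 := by rw [← k, ht]
    subst this
    refine Or.inr ⟨_, ?_, hp⟩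
    simpa using mem_seg hB hC (by linarith)
  · have : C = 0 := by rw [← k, ht]
    subst this
    refine Or.inl ⟨_, ?_, hp⟩
    simpa using mem_seg hA hB (by linarith)

/-- a segment leaving a triangle meets a side -/
lemma exit_tri {z b x y w : Plane} (hz : InT z x y w) (hb : ¬ InT b x y w) :
    Cr x y z b ∨ Cr y w z b ∨ Cr x w z b := by
  obtain ⟨α, β, γ, h1, h2, h3, h4, hz⟩ := hz
  obtain ⟨b', hb', α', β', γ', k4, e, hneg⟩ : ∃ b' ∈ segment ℝ z b, ∃ α' β' γ' : ℝ,
      α' + β' + γ' = 1 ∧ b' = α' • x + β' • y + γ' • w ∧ min α' (min β' γ') < 0 := by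
    rcases rep x y w b with ⟨α', β', γ', k4, e⟩ | ⟨l, m, n, k1, -, k3, k4⟩
    · refine ⟨b, right_mem_segment _ _ _, α', β', γ', k4, e, ?_⟩
      by_contra k
      simp only [not_lt, le_min_iff] at k
      exact hb ⟨α', β', γ', k.1, k.2.1, k.2.2, k4, e⟩
    · obtain ⟨M, -, hM⟩ := big (α := α) (γ := γ) k3
      refine ⟨z, left_mem_segment _ _ _, α + M * l, β + M * m, γ + M * n,
        by linear_combination h4 + M * k1, ?_, ?_⟩
      · have : (α + M * l) • x + (β + M * m) • y + (γ + M * n) • w =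
            α • x + β • y + γ • w + M • (l • x + m • y + n • w) := by module
        rw [this, k4, smul_zero, add_zero, ← hz]
      · rcases hM with k | k
        · exact (min_le_left _ _).trans_lt k
        · exact ((min_le_right _ _).trans (min_le_right _ _)).trans_lt k
  obtain ⟨t, t0, t1, ht⟩ := ivt (f := fun t => min ((1 - t) * α + t * α')
    (min ((1 - t) * β + t * β') ((1 - t) * γ + t * γ')))
    (Continuous.min (by fun_prop) (Continuous.min (by fun_prop) (by fun_prop)))
    (by simp only [sub_zero, one_mul, zero_mul, add_zero]; exact le_min h1 (le_min h2 h3))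
    (by simpa only [sub_self, one_mul, zero_mul, zero_add] using hneg)
  have hp : (1 - t) • z + t • b' ∈ segment ℝ z b :=
    (convex_segment z b) (left_mem_segment ℝ z b) hb' (sub_nonneg.2 t1) t0 (sub_add_cancel 1 t)
  have ep : (1 - t) • z + t • b' = ((1 - t) * α + t * α') • x + ((1 - t) * β + t * β') • y +
      ((1 - t) * γ + t * γ') • w := by
    have : ((1 - t) * α + t * α') • x + ((1 - t) * β + t * β') • y + ((1 - t) * γ + t * γ') • w =
      (1 - t) • (α • x + β • y + γ • w) + t • (α' • x + β' • y + γ' • w) := by module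
    rw [this, ← hz, ← e]
  have es : ((1 - t) * α + t * α') + ((1 - t) * β + t * β') + ((1 - t) * γ + t * γ') = 1 := by
    linear_combination (1 - t) * h4 + t * k4
  rw [ep] at hp
  exact side3 es ht hp

/-- the axiom of Pasch -/
lemma pasch {b b' x y w : Plane} (hb : ¬ InT b x y w) (hb' : ¬ InT b' x y w)
    (h : Cr x w b b') : Cr x y b b' ∨ Cr y w b b' := by
  obtain ⟨z, ⟨α, γ, h1, h3, h4, hz⟩, hzb⟩ := h
  obtain ⟨c, hc, α', β', γ', k4, e, hβ, hneg⟩ : ∃ c ∈ segment ℝ b b', ∃ α' β' γ' : ℝ,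
      α' + β' + γ' = 1 ∧ c = α' • x + β' • y + γ' • w ∧ 0 ≤ β' ∧ min α' γ' < 0 := by
    have fin : ∀ c, ¬ InT c x y w → ∀ α' β' γ' : ℝ, α' + β' + γ' = 1 →
        c = α' • x + β' • y + γ' • w → 0 ≤ β' → min α' γ' < 0 := by
      intro c hc α' β' γ' k4 e hβ
      by_contra k
      simp only [not_lt, le_min_iff] at k
      exact hc ⟨α', β', γ', k.1, hβ, k.2, k4, e⟩
    rcases rep x y w b with ⟨α', β', γ', k4, e⟩ | ⟨l, m, n, k1, k2, k3, k4⟩
    · rcases le_total 0 β' with hβ | hβ
      · exact ⟨b, left_mem_segment _ _ _, α', β', γ', k4, e, hβ, fin b hb _ _ _ k4 e hβ⟩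
      · obtain ⟨s, t, hs, ht, hst, ez⟩ := hzb
        have ht0 : t ≠ 0 := by
          rintro rfl
          have : s = 1 := by linarith
          subst this
          refine hb ⟨α, 0, γ, h1, le_rfl, h3, by linarith, ?_⟩
          simp only [one_smul, zero_smul, add_zero] at ez ⊢
          rw [ez, hz]
        have htp : 0 < t := lt_of_le_of_ne ht ht0.symm
        have e' : b' = ((α - s * α') / t) • x + ((-(s * β')) / t) • y + ((γ - s * γ') / t) • w := by
          have : b' = t⁻¹ • (z - s • b) := by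
            rw [← ez, add_sub_cancel_left, smul_smul, inv_mul_cancel₀ ht0, one_smul]
          rw [this, ← hz, e]
          simp only [div_eq_inv_mul]
          module
        have k5 : (α - s * α') / t + (-(s * β')) / t + (γ - s * γ') / t = 1 := by
          field_simp
          linear_combination h4 - s * k4 - hst
        have hβ' : 0 ≤ (-(s * β')) / t := div_nonneg (by nlinarith) ht
        exact ⟨b', right_mem_segment _ _ _, _, _, _, k5, e', hβ', fin b' hb' _ _ _ k5 e' hβ'⟩
    · obtain ⟨M, hM0, hM⟩ := big (α := α) (γ := γ) k3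
      refine ⟨z, hzb, α + M * l, M * m, γ + M * n, by linear_combination h4 + M * k1, ?_,
        by positivity, min_lt_iff.2 hM⟩
      rw [← hz, ← sub_eq_zero, ← neg_eq_zero, ← smul_zero M, ← k4]; module
  obtain ⟨t, t0, t1, ht⟩ := ivt (f := fun t => min ((1 - t) * α + t * α')
    ((1 - t) * γ + t * γ')) (by fun_prop) (by simp [h1, h3]) (by simpa using hneg)
  have hp : (1 - t) • z + t • c ∈ segment ℝ b b' :=
    (convex_segment b b') hzb hc (by linarith) t0 (by ring)
  have ep : (1 - t) • z + t • c = ((1 - t) * α + t * α') • x + (t * β') • y +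
      ((1 - t) * γ + t * γ') • w := by rw [← hz, e]; module
  have es : ((1 - t) * α + t * α') + (t * β') + ((1 - t) * γ + t * γ') = 1 := by
    linear_combination (1 - t) * h4 + t * k4
  have hB : 0 ≤ t * β' := by positivity
  rw [ep] at hp
  exact side2 es ht hB hp

/-- Pasch, with the triangle inside a convex set that misses the end points -/
lemma pasch' {S : Set Plane} (hS : Convex ℝ S) {b b' x y w : Plane} (hx : x ∈ S) (hy : y ∈ S)
    (hw : w ∈ S) (hb : b ∉ S) (hb' : b' ∉ S) (h : Cr x w b b') : Cr x y b b' ∨ Cr y w b b' :=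
  pasch (fun k => hb (k.mem hS hx hy hw)) (fun k => hb' (k.mem hS hx hy hw)) h

lemma cara {A : Set Plane} {z : Plane} (hz : z ∈ convexHull ℝ A) :
    ∃ x ∈ A, ∃ y ∈ A, ∃ w ∈ A, InT z x y w := by
  classical
  rw [convexHull_eq_union] at hz
  simp only [mem_iUnion] at hz
  obtain ⟨t, ht, hi, hz⟩ := hz
  have hc : t.card ≤ 3 := by
    have h1 := hi.card_le_finrank_succ
    have h2 : Module.finrank ℝ (vectorSpan ℝ (range ((↑) : t → Plane))) ≤ 2 :=
      (Submodule.finrank_le _).trans (by simp)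
    simp only [Fintype.card_coe] at h1
    omega
  have hne : t.Nonempty := by
    rw [Finset.nonempty_iff_ne_empty]
    rintro rfl
    simp at hz
  have key : ∀ x y w, x ∈ t → y ∈ t → w ∈ t → (∀ u ∈ t, u = x ∨ u = y ∨ u = w) →
      ∃ x ∈ A, ∃ y ∈ A, ∃ w ∈ A, InT z x y w := by
    intro x y w hx hy hw hu
    refine ⟨x, ht hx, y, ht hy, w, ht hw, convexHull_min (fun u hut => ?_) (convex_inT x y w) hz⟩
    rcases hu u hut with rfl | rfl | rfl
    · exact ⟨1, 0, 0, by norm_num, le_rfl, le_rfl, by norm_num, by simp⟩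
    · exact ⟨0, 1, 0, by norm_num, by norm_num, le_rfl, by norm_num, by simp⟩
    · exact ⟨0, 0, 1, by norm_num, le_rfl, by norm_num, by norm_num, by simp⟩
  have hp := hne.card_pos
  obtain h | h | h : t.card = 1 ∨ t.card = 2 ∨ t.card = 3 := by omega
  · obtain ⟨x, rfl⟩ := Finset.card_eq_one.1 h
    exact key x x x (by simp) (by simp) (by simp) (by simp)
  · obtain ⟨x, y, -, rfl⟩ := Finset.card_eq_two.1 h
    exact key x y y (by simp) (by simp) (by simp) (by simp)
  · obtain ⟨x, y, w, -, -, -, rfl⟩ := Finset.card_eq_three.1 h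
    exact key x y w (by simp) (by simp) (by simp) (by simp)

lemma disjoint_hull {A B E F : Set Plane} (hE : Convex ℝ E) (hF : Convex ℝ F) (hA : A ⊆ E \ F)
    (hB : B ⊆ F \ E) (h : ∀ a ∈ A, ∀ a' ∈ A, ∀ b ∈ B, ∀ b' ∈ B, ¬ Cr a a' b b') :
    Disjoint (convexHull ℝ A) (convexHull ℝ B) := by
  have s1 : ∀ a ∈ A, ∀ a' ∈ A, ∀ z ∈ segment ℝ a a', z ∉ convexHull ℝ B := by
    intro a ha a' ha' z hz hzB
    obtain ⟨x, hx, y, hy, w, hw, hT⟩ := cara hzB
    have hsub : segment ℝ z a ⊆ segment ℝ a a' :=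
      (convex_segment a a').segment_subset hz (left_mem_segment _ _ _)
    have fin : ∀ u ∈ B, ∀ v ∈ B, ¬ Cr u v z a := fun u hu v hv ⟨p, p1, p2⟩ =>
      h a ha a' ha' u hu v hv ⟨p, hsub p2, p1⟩
    rcases exit_tri hT (b := a) (fun k => (hA ha).2 (k.mem hF (hB hx).1 (hB hy).1 (hB hw).1))
      with k | k | k
    · exact fin _ hx _ hy k
    · exact fin _ hy _ hw k
    · exact fin _ hx _ hw k
  rw [Set.disjoint_left]
  intro z hzA hzB
  obtain ⟨x, hx, y, hy, w, hw, hT⟩ := cara hzA
  obtain ⟨b, hb⟩ := convexHull_nonempty_iff.1 ⟨z, hzB⟩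
  have hsub : segment ℝ z b ⊆ convexHull ℝ B :=
    (convex_convexHull ℝ B).segment_subset hzB (subset_convexHull _ _ hb)
  have fin : ∀ u ∈ A, ∀ v ∈ A, ¬ Cr u v z b := fun u hu v hv ⟨p, p1, p2⟩ =>
    s1 u hu v hv p p1 (hsub p2)
  rcases exit_tri hT (b := b) (fun k => (hB hb).2 (k.mem hE (hA hx).1 (hA hy).1 (hA hw).1))
    with k | k | k
  · exact fin _ hx _ hy k
  · exact fin _ hy _ hw k
  · exact fin _ hx _ hw k

end Pool.Agent.Lib.MP_fb520c_co.Cov
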