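import Pool.Agent.Lib.MP_fb520c_co.Latt
import Pool.Agent.Lib.MP_fb520c_co.Cov.Pasch

/-! Non-crossing convex coverings can be shrunk to tilings by convex cells. -/

set_option autoImplicit false

open Set MeasureTheory Metric

noncomputable section

namespace Pool.Agent.Lib.MP_fb520c_co.Cov

/-- the sets do not cross -/
def NC (E F : Set Plane) : Prop :=
  ∀ a ∈ interior E \ F, ∀ a' ∈ interior E \ F, ∀ b ∈ interior F \ E, ∀ b' ∈ interior F \ E,
    ¬ Cr a a' b b'

lemma NC.symm {E F : Set Plane} (h : NC E F) : NC F E :=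
  fun a ha a' ha' b hb b' hb' k => h b hb b' hb' a ha a' ha' k.swap

/-- the line splits the pair -/
def Split (E F : Set Plane) (v : Plane) (c : ℝ) : Prop :=
  v ≠ 0 ∧ (∀ a ∈ interior E \ F, fv v a < c) ∧ ∀ b ∈ interior F \ E, c < fv v b

lemma fv_neg (v z : Plane) : fv (-v) z = -fv v z := by simp [fv]; ring

lemma Split.neg {E F : Set Plane} {v : Plane} {c : ℝ} (h : Split E F v c) : Split F E (-v) (-c) :=
  ⟨neg_ne_zero.2 h.1, fun a ha => by rw [fv_neg]; linarith [h.2.2 a ha],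
    fun b hb => by rw [fv_neg]; linarith [h.2.1 b hb]⟩

lemma convex_half' (v : Plane) (c : ℝ) : Convex ℝ {z | c < fv v z} := by
  have := convex_half (-v) (-c)
  simpa only [fv_neg, neg_lt_neg_iff] using this

lemma convex_half_le (v : Plane) (c : ℝ) : Convex ℝ {z | fv v z ≤ c} := by
  refine convex_halfSpace_le ⟨fun x y => ?_, fun a x => ?_⟩ c
  · simp [fv]; ring
  · simp [fv]; ring

lemma split_of_empty {E F : Set Plane} (hE : IsCompact E) (h : interior F \ E = ∅) :
    ∃ v c, Split E F v c := by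
  obtain ⟨M, hM⟩ := (hE.image (continuous_fv (pt 1 0))).bddAbove
  refine ⟨pt 1 0, M + 1, fun k => by simpa using congrArg (fun z : Plane => z 0) k,
    fun a ha => ?_, fun b hb => by rw [h] at hb; exact hb.elim⟩
  linarith [hM ⟨a, interior_subset ha.1, rfl⟩]

lemma NC.split {E F : Set Plane} (hE : IsCompact E) (cE : Convex ℝ E) (hF : IsCompact F)
    (cF : Convex ℝ F) (h : NC E F) : ∃ v c, Split E F v c := by
  rcases (interior F \ E).eq_empty_or_nonempty with hB | ⟨b, hb⟩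
  · exact split_of_empty hE hB
  rcases (interior E \ F).eq_empty_or_nonempty with hA | ⟨a, ha⟩
  · obtain ⟨v, c, k⟩ := split_of_empty hF hA
    exact ⟨_, _, k.neg⟩
  obtain ⟨v, c, h1, h2⟩ := exists_sep (convex_convexHull ℝ _)
    ((isOpen_interior.sdiff hF.isClosed).convexHull (𝕜 := ℝ)) (convex_convexHull ℝ _)
    ((isOpen_interior.sdiff hE.isClosed).convexHull (𝕜 := ℝ))
    (disjoint_hull cE cF (sdiff_subset_sdiff_left interior_subset)
      (sdiff_subset_sdiff_left interior_subset) h)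
  refine ⟨v, c, ?_, fun a ha => h1 a (subset_convexHull _ _ ha),
    fun b hb => h2 b (subset_convexHull _ _ hb)⟩
  rintro rfl
  have e1 := h1 a (subset_convexHull _ _ ha)
  have e2 := h2 b (subset_convexHull _ _ hb)
  simp only [fv, PiLp.zero_apply, zero_mul, add_zero] at e1 e2
  linarith

lemma lt_of_interior {E : Set Plane} {v : Plane} (hv : v ≠ 0) {c : ℝ} {z : Plane}
    (h : ∀ x ∈ E, fv v x ≤ c) (hz : z ∈ interior E) : fv v z < c := by
  have hc : Continuous fun t : ℝ => z + t • v := by fun_prop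
  have : ∀ᶠ t in nhds (0 : ℝ), z + t • v ∈ interior E :=
    hc.continuousAt.eventually_mem (by simpa using isOpen_interior.mem_nhds hz)
  obtain ⟨t, ht, h0⟩ := ((this.filter_mono (nhdsWithin_le_nhds (s := Ioi 0))).and
    self_mem_nhdsWithin).exists
  have h1 := h _ (interior_subset ht)
  have h2 : 0 < fv v v := by
    have := norm_sq_eq v
    have k := norm_pos_iff.2 hv
    unfold fv
    nlinarith
  rw [fv_add_smul] at h1
  nlinarith [mul_pos (show 0 < t from h0) h2]

/-- the key lemma on a new crossing -/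
lemma key {E F : Set Plane} (cF : Convex ℝ F) (h : NC E F) {v : Plane} {c : ℝ}
    {a a' b b' : Plane} (ha : a ∈ interior E \ F) (ha' : a' ∈ interior E \ F) (va : fv v a < c)
    (va' : fv v a' < c) (hb : b ∈ interior F) (hb' : b' ∈ interior F) (kb : b ∉ E ∨ c < fv v b)
    (kb' : b' ∉ E ∨ c < fv v b') (hcr : Cr a a' b b') :
    ∃ p ∈ interior F, c < fv v p ∧ ∃ q ∈ interior F \ E, ∀ y ∈ interior F, c < fv v y →
      y ∈ E ∧ Cr a a' y q := by
  have nocr : ∀ x y, c < fv v x → c < fv v y → ¬ Cr a a' x y := by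
    rintro x y hx hy ⟨z, z1, z2⟩
    have e1 : fv v z < c := (convex_half v c).segment_subset va va' z1
    have e2 : c < fv v z := (convex_half' v c).segment_subset hx hy z2
    linarith
  have main : ∀ p ∈ interior F, c < fv v p → ∀ q ∈ interior F \ E, Cr a a' p q →
      ∃ p ∈ interior F, c < fv v p ∧ ∃ q ∈ interior F \ E, ∀ y ∈ interior F, c < fv v y →
        y ∈ E ∧ Cr a a' y q := by
    intro p hp vp q hq k
    refine ⟨p, hp, vp, q, hq, fun y hy vy => ?_⟩
    have : Cr a a' y q := by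
      rcases pasch' cF (interior_subset hp) (interior_subset hy) (interior_subset hq.1) ha.2 ha'.2
        k.swap with k' | k'
      · exact absurd k'.swap (nocr _ _ vp vy)
      · exact k'.swap
    exact ⟨by_contra fun hn => h a ha a' ha' y ⟨hy, hn⟩ q hq this, this⟩
  rcases kb with kb | kb <;> rcases kb' with kb' | kb'
  · exact absurd hcr (h a ha a' ha' b ⟨hb, kb⟩ b' ⟨hb', kb'⟩)
  · exact main b' hb' kb' b ⟨hb, kb⟩ hcr.right
  · exact main b hb kb b' ⟨hb', kb'⟩ hcr
  · exact absurd hcr (nocr _ _ kb kb')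

variable {ι : Type} [Fintype ι]

/-- non-crossing coverings by compact convex sets -/
def Good (Q : Set Plane) (E : ι → Set Plane) : Prop :=
  (∀ i, IsCompact (E i) ∧ Convex ℝ (E i)) ∧ (∀ i j, i ≠ j → NC (E i) (E j)) ∧ Q ⊆ ⋃ i, E i

lemma cover_of_ae {Q : Set Plane} (hQ : IsOpen Q) {E : ι → Set Plane} (hE : ∀ i, IsClosed (E i))
    {N : Set Plane} (hN : volume N = 0) (h : ∀ x ∈ Q, x ∉ N → ∃ i, x ∈ E i) : Q ⊆ ⋃ i, E i := by
  refine sdiff_eq_empty.1 ((hQ.sdiff (isClosed_iUnion_of_finite hE)).eq_empty_of_measure_zero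
    (μ := volume) (measure_mono_null (fun z hz => ?_) hN))
  by_contra hzN
  exact hz.2 (mem_iUnion.2 (h z hz.1 hzN))

omit [Fintype ι] in
lemma volume_frontiers [Finite ι] {E : ι → Set Plane} (hE : ∀ i, Convex ℝ (E i)) :
    volume (⋃ i, frontier (E i)) = 0 :=
  measure_iUnion_null fun i => (hE i).addHaar_frontier volume

lemma Good.improve {Q : Set Plane} (hQ : IsOpen Q) {E : ι → Set Plane} (hE : Good Q E) {i0 j0 : ι}
    (h0 : i0 ≠ j0) (h1 : ¬ Disjoint (interior (E i0)) (interior (E j0))) :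
    ∃ E', Good Q E' ∧ (∀ i, E' i ⊆ E i) ∧ ∃ i, ¬ E i ⊆ E' i := by
  classical
  obtain ⟨hcc, hnc, hcov⟩ := hE
  have hs : ∀ p : ι × ι, ∃ s : Plane × ℝ, p.1 ≠ p.2 → Split (E p.1) (E p.2) s.1 s.2 ∧
      ((∃ v c, Split (E p.1) (E p.2) v c ∧ ∃ x ∈ interior (E p.1), c < fv v x) →
        ∃ x ∈ interior (E p.1), s.2 < fv s.1 x) := by
    intro p
    by_cases hp : p.1 = p.2
    · exact ⟨(0, 0), fun k => absurd hp k⟩
    by_cases k : ∃ v c, Split (E p.1) (E p.2) v c ∧ ∃ x ∈ interior (E p.1), c < fv v x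
    · obtain ⟨v, c, k1, k2⟩ := k
      exact ⟨(v, c), fun _ => ⟨k1, fun _ => k2⟩⟩
    · obtain ⟨v, c, k1⟩ := (hnc _ _ hp).split (hcc _).1 (hcc _).2 (hcc _).1 (hcc _).2
      exact ⟨(v, c), fun _ => ⟨k1, fun k2 => absurd k2 k⟩⟩
  choose s hs using hs
  let P : Set (ι × ι) := {p | p.1 ≠ p.2 ∧ ∃ x ∈ interior (E p.1), (s p).2 < fv (s p).1 x}
  have hP : P.Nonempty := by
    obtain ⟨v, c, k⟩ := (hnc _ _ h0).split (hcc _).1 (hcc _).2 (hcc _).1 (hcc _).2
    obtain ⟨x, hx, hxc⟩ : ∃ x ∈ interior (E i0) ∩ interior (E j0), fv v x ≠ c := by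
      by_contra hn
      push Not at hn
      exact h1 (disjoint_iff_inter_eq_empty.2
        ((isOpen_interior.inter isOpen_interior).eq_empty_of_measure_zero (μ := volume)
          (measure_mono_null hn (volume_line k.1 c))))
    rcases lt_or_gt_of_ne hxc with h | h
    · exact ⟨(j0, i0), h0.symm, (hs (j0, i0) h0.symm).2 ⟨_, _, k.neg, x, hx.2, by
        rw [fv_neg]; linarith⟩⟩
    · exact ⟨(i0, j0), h0, (hs (i0, j0) h0).2 ⟨_, _, k, x, hx.1, h⟩⟩
  obtain ⟨⟨i, j⟩, ⟨hij, x0, hx0, vx0⟩, hmax⟩ := (toFinite P).exists_maximalFor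
    (fun p : ι × ι => interior (E p.2) ∩ {z | (s p).2 < fv (s p).1 z}) P hP
  obtain ⟨⟨hv, sp1, -⟩, -⟩ := hs (i, j) hij
  simp only at hij hx0 vx0 hv sp1 hmax
  generalize (s (i, j)).1 = v at *
  generalize (s (i, j)).2 = c at *
  let T : ι → Prop := fun k => k ≠ j ∧ ∀ x ∈ interior (E k), c < fv v x → x ∈ E j
  let E' : ι → Set Plane := fun k => if T k then E k ∩ {z | fv v z ≤ c} else E k
  have sub : ∀ k, E' k ⊆ E k := fun k => by
    simp only [E']
    split_ifs
    · exact inter_subset_left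
    · exact Subset.rfl
  have eT : ∀ k, T k → E' k = E k ∩ {z | fv v z ≤ c} := fun k hk => if_pos hk
  have eN : ∀ k, ¬ T k → E' k = E k := fun k hk => if_neg hk
  have hlt : ∀ k, T k → ∀ z ∈ interior (E' k), fv v z < c := fun k hk z hz =>
    lt_of_interior hv (fun x hx => by rw [eT k hk] at hx; exact hx.2) hz
  have hcl : IsClosed {z | fv v z ≤ c} := isClosed_le (continuous_fv v) continuous_const
  have hop : IsOpen {z | c < fv v z} := isOpen_lt continuous_const (continuous_fv v)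
  have cc' : ∀ k, IsCompact (E' k) ∧ Convex ℝ (E' k) := fun k => by
    by_cases hk : T k
    · rw [eT k hk]
      exact ⟨(hcc k).1.inter_right hcl, (hcc k).2.inter (convex_half_le v c)⟩
    · rw [eN k hk]; exact hcc k
  have one : ∀ k l, k ≠ l → T k → ¬ T l → NC (E' k) (E' l) := by
    intro k l hkl hk hl a ha a' ha' b hb b' hb' hcr
    rw [eN l hl] at ha ha' hb hb'
    have out : ∀ y, y ∉ E' k → y ∉ E k ∨ c < fv v y := fun y hy => by
      rw [eT k hk] at hy
      by_contra hn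
      push Not at hn
      exact hy hn
    have ia : a ∈ interior (E k) \ E l := ⟨interior_mono (sub k) ha.1, ha.2⟩
    have ia' : a' ∈ interior (E k) \ E l := ⟨interior_mono (sub k) ha'.1, ha'.2⟩
    obtain ⟨p, hp, vp, q, hq, hy⟩ := key (hcc l).2 (hnc k l hkl) ia ia' (hlt k hk a ha.1)
      (hlt k hk a' ha'.1) hb.1 hb'.1 (out b hb.2) (out b' hb'.2) hcr
    have inn : ∀ y ∈ interior (E l), c < fv v y → y ∈ interior (E k) := fun y h1 h2 =>
      interior_maximal (s := E k) (t := interior (E l) ∩ {z | c < fv v z})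
        (fun x hx => (hy x hx.1 hx.2).1) (isOpen_interior.inter hop) ⟨h1, h2⟩
    by_cases hlj : l = j
    swap
    · exact hl ⟨hlj, fun y h1 h2 => hk.2 y (inn y h1 h2) h2⟩
    subst hlj
    obtain ⟨⟨-, t1, t2⟩, -⟩ := hs (l, k) hkl.symm
    have up : ∀ y ∈ interior (E l), c < fv v y → (s (l, k)).2 < fv (s (l, k)).1 y := by
      intro y h1 h2
      obtain ⟨w, w1, w2⟩ := (hy y h1 h2).2
      by_contra hn
      have e1 : (s (l, k)).2 < fv (s (l, k)).1 w :=
        (convex_half' _ _).segment_subset (t2 a ia) (t2 a' ia') w1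
      have e2 : fv (s (l, k)).1 w ≤ (s (l, k)).2 :=
        (convex_half_le _ _).segment_subset (not_lt.1 hn) (t1 q hq).le w2
      linarith
    have := hmax (j := (l, k)) ⟨hkl.symm, p, hp, up p hp vp⟩
      (fun y hy => ⟨inn y hy.1 hy.2, up y hy.1 hy.2⟩) (show a ∈ _ from ⟨ia.1, t2 a ia⟩)
    exact ia.2 (interior_subset this.1)
  have hTi : T i := ⟨hij, fun x h1 h2 => by_contra fun hn => by linarith [sp1 x ⟨h1, hn⟩]⟩
  refine ⟨E', ⟨cc', fun k l hkl => ?_, ?_⟩, sub, i, fun hn => ?_⟩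
  · by_cases hk : T k <;> by_cases hl : T l
    · have f : ∀ k l, T k → T l → ∀ a ∈ interior (E' k) \ E' l, a ∈ interior (E k) \ E l :=
        fun k l hk hl a ha => ⟨interior_mono (sub k) ha.1, fun h => ha.2 (by
          rw [eT l hl]; exact ⟨h, (hlt k hk a ha.1).le⟩)⟩
      exact fun a ha a' ha' b hb b' hb' => hnc k l hkl a (f k l hk hl a ha) a' (f k l hk hl a' ha')
        b (f l k hl hk b hb) b' (f l k hl hk b' hb')
    · exact one k l hkl hk hl
    · exact (one l k hkl.symm hl hk).symm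
    · rw [eN k hk, eN l hl]; exact hnc k l hkl
  · refine cover_of_ae hQ (fun k => (cc' k).1.isClosed) (volume_frontiers fun k => (hcc k).2)
      fun x hx hN => ?_
    obtain ⟨k, hk⟩ := mem_iUnion.1 (hcov hx)
    have hi : x ∈ interior (E k) := by_contra fun hn =>
      hN (mem_iUnion.2 ⟨k, subset_closure hk, hn⟩)
    by_cases hT : T k
    · rcases le_or_gt (fv v x) c with h | h
      · exact ⟨k, by rw [eT k hT]; exact ⟨hk, h⟩⟩
      · exact ⟨j, by rw [eN j fun h => h.1 rfl]; exact hT.2 x hi h⟩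
    · exact ⟨k, by rw [eN k hT]; exact hk⟩
  · have := hn (interior_subset hx0)
    rw [eT i hTi] at this
    exact absurd this.2 (not_le.2 vx0)

theorem exists_cells {Q : Set Plane} (hQ : IsOpen Q) {D : ι → Set Plane} (hD : Good Q D) :
    ∃ E : ι → Set Plane, (∀ i, E i ⊆ D i) ∧ (∀ i, IsCompact (E i) ∧ Convex ℝ (E i)) ∧
      (∀ i j, i ≠ j → Disjoint (interior (E i)) (interior (E j))) ∧ Q ⊆ ⋃ i, E i := by
  obtain ⟨E, hED, hE, hmin⟩ := zorn_le_nonempty₀ (α := (ι → Set Plane)ᵒᵈ) {E | Good Q E}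
    (fun c hc hch y hy => by
      have : Nonempty c := ⟨⟨y, hy⟩⟩
      have low : ∀ {κ : Type} [Finite κ] (R : κ → c), ∃ S : c, ∀ k i, S.1 i ⊆ (R k).1 i := by
        intro κ _ R
        obtain ⟨S, hS⟩ := hch.directed.finite_le R
        exact ⟨S, fun k i => hS k i⟩
      have out : ∀ i x, x ∉ ⋂ R : c, R.1 i → ∃ R : c, x ∉ R.1 i := fun i x hx => by
        simpa only [mem_iInter, not_forall] using hx
      refine ⟨fun i => ⋂ R : c, R.1 i, ⟨fun i => ⟨?_, convex_iInter fun R => ((hc R.2).1 i).2⟩,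
        fun i j hij a ha a' ha' b hb b' hb' => ?_, fun x hx => ?_⟩,
        fun R hR i => iInter_subset (fun R : c => R.1 i) ⟨R, hR⟩⟩
      · exact ((hc hy).1 i).1.of_isClosed_subset
          (isClosed_iInter fun R => ((hc R.2).1 i).1.isClosed)
          (iInter_subset (fun R : c => R.1 i) ⟨y, hy⟩)
      · obtain ⟨R0, h0⟩ := out _ _ ha.2
        obtain ⟨R1, h1⟩ := out _ _ ha'.2
        obtain ⟨R2, h2⟩ := out _ _ hb.2
        obtain ⟨R3, h3⟩ := out _ _ hb'.2
        obtain ⟨S, hS⟩ := low ![R0, R1, R2, R3]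
        have m : ∀ i, interior (⋂ R : c, R.1 i) ⊆ interior (S.1 i) := fun i =>
          interior_mono (iInter_subset (fun R : c => R.1 i) S)
        exact (hc S.2).2.1 i j hij a ⟨m i ha.1, fun k => h0 (hS 0 j k)⟩
          a' ⟨m i ha'.1, fun k => h1 (hS 1 j k)⟩ b ⟨m j hb.1, fun k => h2 (hS 2 i k)⟩
          b' ⟨m j hb'.1, fun k => h3 (hS 3 i k)⟩
      · by_contra hn
        simp only [mem_iUnion, not_exists] at hn
        choose R hR using fun i => out i x (hn i)
        obtain ⟨S, hS⟩ := low R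
        obtain ⟨i, hi⟩ := mem_iUnion.1 ((hc S.2).2.2 hx)
        exact hR i (hS i i hi)) D hD
  refine ⟨E, hED, hE.1, fun i j hij => by_contra fun hn => ?_, hE.2.2⟩
  obtain ⟨E', h1, h2, k, h3⟩ := Good.improve hQ hE hij hn
  exact h3 (hmin h1 h2 k)

/-- polygons inside the cells, with at most six sides on average -/
theorem cell_polygons (o : Plane) {L : ℝ} (hL : 0 < L) {D : ι → Set Plane} (hD : Good (sq o L) D) :
    ∃ S : ι → Finset (Plane × ℝ), ∃ I : Finset ι, (∀ i ∈ I, poly (S i) ⊆ D i) ∧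
      (∀ i, ∀ h ∈ S i, h.1 ≠ 0) ∧ ∑ i ∈ I, (S i).card ≤ 6 * (I.card + 2) ∧
      ENNReal.ofReal (4 * L ^ 2) ≤ ∑ i ∈ I, volume (poly (S i)) := by
  classical
  obtain ⟨E, hED, hcc, hdis, hcov⟩ := exists_cells (isOpen_sq o L) hD
  let V : ι → Set Plane := fun i => interior (E i) ∩ sq o L
  let I : Finset ι := Finset.univ.filter fun i => (V i).Nonempty
  obtain ⟨S, h1, h2, h3, h4⟩ := exists_polygons (ι := I) o hL (fun i => V i.1)
    ⟨fun i => ⟨isOpen_interior.inter (isOpen_sq _ _), (hcc _).2.interior.inter (convex_sq _ _),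
      inter_subset_right⟩, fun i j hij => (hdis _ _ fun e => hij (Subtype.ext e)).mono
        inter_subset_left inter_subset_left⟩ fun i => (Finset.mem_filter.1 i.2).2
  have hN := volume_frontiers fun k => (hcc k).2
  have hV : ∀ z ∈ sq o L, z ∉ (⋃ i, frontier (E i)) → ∃ i : I, z ∈ V i.1 := by
    intro z hz hzN
    obtain ⟨k, hk⟩ := mem_iUnion.1 (hcov hz)
    have hi : z ∈ interior (E k) := by_contra fun hn =>
      hzN (mem_iUnion.2 ⟨k, subset_closure hk, hn⟩)
    exact ⟨⟨k, Finset.mem_filter.2 ⟨Finset.mem_univ _, z, hi, hz⟩⟩, hi, hz⟩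
  have hin : ∀ i : I, poly (S i) ⊆ E i.1 := by
    intro i
    refine sdiff_eq_empty.1 (((isOpen_poly _).sdiff (hcc _).1.isClosed).eq_empty_of_measure_zero
      (μ := volume) (measure_mono_null (fun z hz => ?_) hN))
    by_contra hzN
    obtain ⟨k, hk⟩ := hV z ((h2.1 i).2.2 hz.1) hzN
    by_cases e : k = i
    · subst e; exact hz.2 (interior_subset hk.1)
    · exact Set.disjoint_left.1 (h2.2 _ _ e) (h1 _ hk) hz.1
  have hsub : sq o L ⊆ (⋃ i, frontier (E i)) ∪ ⋃ i, poly (S i) := by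
    intro z hz
    by_cases hzN : z ∈ ⋃ i, frontier (E i)
    · exact Or.inl hzN
    · obtain ⟨k, hk⟩ := hV z hz hzN
      exact Or.inr (mem_iUnion.2 ⟨k, h1 _ hk⟩)
  have hvol := (measure_mono hsub).trans ((measure_union_le (μ := volume) _ _).trans
    (add_le_add hN.le (measure_iUnion_fintype_le _ _)))
  rw [zero_add, volume_sq o hL.le] at hvol
  refine ⟨fun i => if h : i ∈ I then S ⟨i, h⟩ else ∅, I, fun i hi => ?_, fun i => ?_, ?_, ?_⟩
  · simp only [dif_pos hi]
    exact (hin ⟨i, hi⟩).trans (hED i)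
  · by_cases hi : i ∈ I
    · simp only [dif_pos hi]; exact h3 _
    · simp [dif_neg hi]
  · rw [← Finset.sum_coe_sort]
    simpa using h4
  · rw [← Finset.sum_coe_sort]
    simpa using hvol

end Pool.Agent.Lib.MP_fb520c_co.Cov
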