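import Pool.Agent.Lib.MP_fb520c_co.Cov.Cells

/-! Cells for coverings by fat discs that are far apart and by unit circles. -/

set_option autoImplicit false

open Set MeasureTheory Metric Topology

noncomputable section

namespace Pool.Agent.Lib.MP_fb520c_co.Cov

lemma repl {A B : Set Plane} {a a2 b1 b2 : Plane} (ha : a ∈ closure (convexHull ℝ A))
    (ha' : a ∉ closure (convexHull ℝ B)) (ha2 : a2 ∈ closure (convexHull ℝ A))
    (hb1 : b1 ∈ closure (convexHull ℝ B)) (hb1' : b1 ∉ closure (convexHull ℝ A))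
    (hb2 : b2 ∈ closure (convexHull ℝ B)) (hb2' : b2 ∉ closure (convexHull ℝ A))
    (h : Cr a a2 b1 b2) : ∃ x ∈ A, x ∉ closure (convexHull ℝ B) ∧ Cr x a2 b1 b2 := by
  obtain ⟨f, u, h1, h2⟩ := geometric_hahn_banach_closed_point (convex_convexHull ℝ B).closure
    isClosed_closure ha'
  obtain ⟨x, hx, hux⟩ : ∃ x ∈ A, u < f x := by
    by_contra hn
    push Not at hn
    have : closure (convexHull ℝ A) ⊆ {z | f z ≤ u} :=
      closure_minimal (convexHull_min hn (convex_halfSpace_le f.toLinearMap.isLinear u))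
        (isClosed_le f.continuous continuous_const)
    exact absurd (this ha) (not_le.2 h2)
  refine ⟨x, hx, fun k => by linarith [h1 x k], ?_⟩
  rcases pasch' (convex_convexHull ℝ A).closure ha (subset_closure (subset_convexHull ℝ A hx)) ha2
    hb1' hb2' h with ⟨z, z1, z2⟩ | k
  · have e1 : u < f z := (convex_halfSpace_gt f.toLinearMap.isLinear u).segment_subset h2 hux z1
    have e2 := h1 z ((convex_convexHull ℝ B).closure.segment_subset hb1 hb2 z2)
    linarith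
  · exact k

/-- hulls of disjoint star-shaped sets do not cross -/
lemma star_nc {A B : Set Plane} {p q : Plane} (hA : ∀ a ∈ A, segment ℝ p a ⊆ A)
    (hB : ∀ b ∈ B, segment ℝ q b ⊆ B) (hd : Disjoint A B) (hp : p ∉ convexHull ℝ B) :
    NC (closure (convexHull ℝ A)) (closure (convexHull ℝ B)) := by
  intro a1 ha1 a2 ha2 b1 hb1 b2 hb2 h
  have sA : A ⊆ closure (convexHull ℝ A) := (subset_convexHull ℝ A).trans subset_closure
  have sB : B ⊆ closure (convexHull ℝ B) := (subset_convexHull ℝ B).trans subset_closure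
  have i1 := interior_subset ha1.1
  have i2 := interior_subset ha2.1
  have j1 := interior_subset hb1.1
  have j2 := interior_subset hb2.1
  obtain ⟨x1, m1, n1, h⟩ := repl i1 ha1.2 i2 j1 hb1.2 j2 hb2.2 h
  obtain ⟨x2, m2, n2, h⟩ := repl i2 ha2.2 (sA m1) j1 hb1.2 j2 hb2.2 h.left
  obtain ⟨y1, m3, n3, h⟩ := repl j1 hb1.2 j2 (sA m2) n2 (sA m1) n1 h.swap
  obtain ⟨y2, m4, n4, h⟩ := repl j2 hb2.2 (sB m3) (sA m2) n2 (sA m1) n1 h.left
  have fin : ∀ x ∈ A, x ∉ closure (convexHull ℝ B) → ¬ Cr p x y2 y1 := by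
    intro x m n k
    have hq : q ∈ B := hB y1 m3 (left_mem_segment _ _ _)
    rcases pasch' (convex_convexHull ℝ B) (subset_convexHull ℝ B m4) (subset_convexHull ℝ B hq)
      (subset_convexHull ℝ B m3) hp (fun k => n (subset_closure k)) k.swap with k | k
    · obtain ⟨z, z1, z2⟩ := k.left
      exact Set.disjoint_left.1 hd (hA x m z2) (hB _ m4 z1)
    · obtain ⟨z, z1, z2⟩ := k
      exact Set.disjoint_left.1 hd (hA x m z2) (hB _ m3 z1)
  rcases pasch' (convex_convexHull ℝ A).closure (sA m2) (sA (hA x1 m1 (left_mem_segment _ _ _)))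
    (sA m1) n4 n3 h.swap with k | k
  · exact fin x2 m2 n2 k.left
  · exact fin x1 m1 n1 k

/-- a convex body between two concentric discs -/
structure Fat (r : ℝ) (B : Set Plane) : Prop where
  cpt : IsCompact B
  cvx : Convex ℝ B
  low : closedBall 0 r ⊆ B
  up : B ⊆ closedBall 0 1

lemma fat_ball {r : ℝ} (hr : r ≤ 1) : Fat r (closedBall 0 1) :=
  ⟨isCompact_closedBall _ _, convex_closedBall _ _, closedBall_subset_closedBall hr, Subset.rfl⟩

section
variable {r : ℝ} {B : Set Plane} (hB : Fat r B) (hr : 0 < r)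
include hB hr

lemma Fat.nhds : B ∈ 𝓝 (0 : Plane) := Filter.mem_of_superset (closedBall_mem_nhds 0 hr) hB.low

lemma Fat.norm_le (x : Plane) : ‖x‖ ≤ gauge B x := by
  have := gauge_mono (absorbent_nhds_zero (hB.nhds hr)) hB.up x
  rwa [gauge_closedBall zero_le_one, div_one] at this

lemma Fat.gauge_le (x : Plane) : r * gauge B x ≤ ‖x‖ := by
  have := gauge_mono (absorbent_nhds_zero (closedBall_mem_nhds (0 : Plane) hr)) hB.low x
  rwa [gauge_closedBall hr.le, le_div_iff₀' hr] at this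

lemma Fat.mem_iff {x : Plane} : gauge B x ≤ 1 ↔ x ∈ B := by
  rw [gauge_le_one_iff_mem_closure hB.cvx (hB.nhds hr), hB.cpt.isClosed.closure_eq]

/-- the horizontal order property for far centres -/
lemma Fat.far {u e : Plane} {t ρ : ℝ} (ht : 0 < t) (hρ : ρ ≤ 1) (he : 4 * (1 - r ^ 2) < ‖e‖ ^ 2)
    (h1 : gauge B (u - t • e) ≤ ρ) (h2 : ‖u + e‖ ≤ ρ) : gauge B u < ρ := by
  have r1 : r ≤ 1 := by
    have := hB.up (hB.low (show pt r 0 ∈ _ from mem_closedBall_zero_iff.2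
      (abs_le_of_sq_le_sq' (by rw [norm_sq_eq]; simp) hr.le).2))
    have k := abs_coord_le (pt r 0) 0
    rw [mem_closedBall_zero_iff] at this
    exact (le_abs_self _).trans (k.trans this)
  have ρ0 : 0 ≤ ρ := (norm_nonneg _).trans h2
  have small : ∀ m : Plane, ‖m‖ ^ 2 < r ^ 2 * ρ ^ 2 → gauge B m < ρ := fun m hm => by
    have k : ‖m‖ < r * ρ := lt_of_pow_lt_pow_left₀ 2 (by positivity) (by rwa [mul_pow])
    exact lt_of_mul_lt_mul_left ((hB.gauge_le hr m).trans_lt k) hr.le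
  have n1 : ‖u - t • e‖ ^ 2 ≤ ρ ^ 2 :=
    pow_le_pow_left₀ (norm_nonneg _) ((hB.norm_le hr _).trans h1) 2
  have n2 : ‖u + e‖ ^ 2 ≤ ρ ^ 2 := pow_le_pow_left₀ (norm_nonneg _) h2 2
  have q0 : 0 ≤ 1 - r ^ 2 := by nlinarith
  have q1 : ρ ^ 2 * (1 - r ^ 2) ≤ 1 - r ^ 2 := mul_le_of_le_one_left q0 (by nlinarith)
  have D0 : 0 < ‖e‖ ^ 2 := by linarith
  have ex : ∀ τ : ℝ, ‖u + τ • e‖ ^ 2 = ‖u‖ ^ 2 + 2 * τ * fv u e + τ ^ 2 * ‖e‖ ^ 2 := fun τ => by
    simp only [norm_sq_eq, fv, PiLp.add_apply, PiLp.smul_apply, smul_eq_mul]; ring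
  have n1' := ex (-t)
  have n2' := ex 1
  rw [neg_smul, ← sub_eq_add_neg] at n1'
  rw [one_smul] at n2'
  rcases le_or_gt 0 (fv u e) with g | g
  · exact small u (by linarith)
  obtain ⟨τ, τ0, hτ⟩ : ∃ τ : ℝ, 0 < τ ∧ fv u e = -(τ * ‖e‖ ^ 2) :=
    ⟨-fv u e / ‖e‖ ^ 2, div_pos (by linarith) D0, by
      rw [div_mul_cancel₀ _ D0.ne', neg_neg]⟩
  have m := small (u + τ • e) (by
    rw [ex, hτ]
    rw [hτ] at n1' n2'
    rcases le_total τ (1 / 2) with k | k
    · have : 1 / 4 * ‖e‖ ^ 2 ≤ (1 - τ) ^ 2 * ‖e‖ ^ 2 :=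
        mul_le_mul_of_nonneg_right (by nlinarith) D0.le
      nlinarith
    · have : 1 / 4 * ‖e‖ ^ 2 ≤ (t + τ) ^ 2 * ‖e‖ ^ 2 :=
        mul_le_mul_of_nonneg_right (by nlinarith) D0.le
      nlinarith)
  have hs : 0 < t + τ := by linarith
  have eu : u = (τ / (t + τ)) • (u - t • e) + (t / (t + τ)) • (u + τ • e) := by
    refine plane_ext ?_ ?_ <;>
    · simp only [PiLp.add_apply, PiLp.sub_apply, PiLp.smul_apply, smul_eq_mul]
      field_simp
      ring
  have := gauge_add_le hB.cvx (absorbent_nhds_zero (hB.nhds hr))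
    ((τ / (t + τ)) • (u - t • e)) ((t / (t + τ)) • (u + τ • e))
  rw [← eu, gauge_smul_of_nonneg (by positivity), gauge_smul_of_nonneg (by positivity),
    smul_eq_mul, smul_eq_mul] at this
  have a1 := mul_le_mul_of_nonneg_left h1 (show 0 ≤ τ / (t + τ) by positivity)
  have a2 := mul_lt_mul_of_pos_left m (show 0 < t / (t + τ) by positivity)
  have a3 : τ / (t + τ) * ρ + t / (t + τ) * ρ = ρ := by field_simp; ring
  linarith

end

lemma ball_ho {u e : Plane} {t ρ : ℝ} (ht : 0 < t) (he : e ≠ 0) (h1 : ‖u - t • e‖ ≤ ρ)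
    (h2 : ‖u + e‖ ≤ ρ) : ‖u‖ < ρ := by
  have n1 := pow_le_pow_left₀ (norm_nonneg _) h1 2
  have n2 := pow_le_pow_left₀ (norm_nonneg _) h2 2
  have D0 : 0 < ‖e‖ ^ 2 := pow_pos (norm_pos_iff.2 he) 2
  refine lt_of_pow_lt_pow_left₀ 2 ((norm_nonneg _).trans h2) ?_
  have e1 : ‖u - t • e‖ ^ 2 + t * ‖u + e‖ ^ 2 = (1 + t) * (‖u‖ ^ 2 + t * ‖e‖ ^ 2) := by
    simp only [norm_sq_eq, PiLp.add_apply, PiLp.sub_apply, PiLp.smul_apply, smul_eq_mul]; ring
  have e2 : (1 + t) * (‖u‖ ^ 2 + t * ‖e‖ ^ 2) ≤ (1 + t) * ρ ^ 2 := by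
    nlinarith [mul_le_mul_of_nonneg_left n2 ht.le]
  have := le_of_mul_le_mul_left e2 (by linarith)
  linarith [mul_pos ht D0]

variable {ι : Type} [Fintype ι]

/-- two members are unit circles with different centres, or far apart -/
def Apart (r : ℝ) (a : Plane) (A : Set Plane) (b : Plane) (B : Set Plane) : Prop :=
  (A = closedBall 0 1 ∧ B = closedBall 0 1 ∧ a ≠ b) ∨ 4 * (1 - r ^ 2) < ‖b - a‖ ^ 2

lemma gauge_one (x : Plane) : gauge (closedBall (0 : Plane) 1) x = ‖x‖ := by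
  rw [gauge_closedBall zero_le_one, div_one]

lemma Apart.star {r : ℝ} (hr : 0 < r) (r1 : r ≤ 1) {a b : Plane} {A B : Set Plane} (hA : Fat r A)
    (hB : Fat r B) (h : Apart r a A b B) {x : Plane} (h1 : gauge A (x - a) ≤ 1)
    (h2 : gauge A (x - a) ≤ gauge B (x - b)) {s : ℝ} (s0 : 0 ≤ s) (s1 : s < 1) :
    s * gauge A (x - a) < gauge B (a + s • (x - a) - b) := by
  have hab : b - a ≠ 0 := by
    rcases h with h | h
    · exact sub_ne_zero.2 h.2.2.symm
    · intro k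
      rw [k, norm_zero] at h
      nlinarith
  rcases s0.eq_or_lt with rfl | s0
  · refine lt_of_lt_of_le ?_ (hB.norm_le hr _)
    rw [zero_mul, zero_smul, add_zero, norm_sub_rev]
    exact norm_pos_iff.2 hab
  by_contra hn
  have ht : 0 < 1 / s - 1 := by rw [sub_pos, one_lt_div s0]; exact s1
  have e : a + s • (x - a) - b = s • ((x - b) - (1 / s - 1) • (b - a)) := by
    refine plane_ext ?_ ?_ <;>
    · simp only [PiLp.add_apply, PiLp.sub_apply, PiLp.smul_apply, smul_eq_mul]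
      field_simp
      ring
  rw [e, gauge_smul_of_nonneg s0.le, smul_eq_mul, not_lt] at hn
  have k1 := le_of_mul_le_mul_left hn s0
  have k2 : ‖x - b + (b - a)‖ ≤ gauge A (x - a) := by
    rw [sub_add_sub_cancel]; exact hA.norm_le hr _
  refine absurd h2 (not_le.2 ?_)
  rcases h with h | h
  · rw [h.2.1, gauge_one] at k1 ⊢
    exact ball_ho ht hab k1 k2
  · exact hB.far hr ht h1 h k1 k2

lemma Apart.out {r : ℝ} (hr : 1 / 2 ≤ r) {a b : Plane} {A B : Set Plane} (hA : Fat r A)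
    (hB : Fat r B) (h : Apart r a A b B) {x : Plane} (h1 : gauge B (x - b) ≤ 1)
    (h2 : gauge B (x - b) < gauge A (x - a)) : fv (b - a) a < fv (b - a) x := by
  have r0 : 0 < r := by linarith
  have e : ‖x - b‖ ^ 2 = ‖x - a‖ ^ 2 + ‖b - a‖ ^ 2 - 2 * (fv (b - a) x - fv (b - a) a) := by
    simp only [norm_sq_eq, fv, PiLp.sub_apply]; ring
  rcases h with h | h
  · rw [h.1, h.2.1, gauge_one, gauge_one] at h2
    have := pow_lt_pow_left₀ h2 (norm_nonneg _) two_ne_zero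
    linarith [sq_nonneg ‖b - a‖]
  · by_contra hn
    have k1 := pow_le_pow_left₀ (norm_nonneg _) ((hB.norm_le r0 _).trans h1) 2
    have k2 : r * ‖x - b‖ < ‖x - a‖ :=
      (mul_lt_mul_of_pos_left ((hB.norm_le r0 _).trans_lt h2) r0).trans_le (hA.gauge_le r0 _)
    have k3 := pow_lt_pow_left₀ k2 (by positivity) two_ne_zero
    rw [mul_pow] at k3
    have k4 : 1 / 4 ≤ r ^ 2 := by nlinarith
    have k5 : ‖x - a‖ ^ 2 + ‖b - a‖ ^ 2 ≤ ‖x - b‖ ^ 2 := by linarith
    have k6 := sq_nonneg ‖b - a‖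
    have k7 := sq_nonneg ‖x - a‖
    generalize ‖x - a‖ ^ 2 = X at *
    generalize ‖x - b‖ ^ 2 = Y at *
    generalize ‖b - a‖ ^ 2 = D at *
    generalize r ^ 2 = R at *
    nlinarith [mul_le_mul_of_nonneg_left k5 (show 0 ≤ R by linarith)]

theorem fat_good {r : ℝ} (hr : 1 / 2 ≤ r) (r1 : r ≤ 1) (c : ι → Plane) (B : ι → Set Plane)
    (hB : ∀ i, Fat r (B i)) (hp : ∀ i j, i ≠ j → Apart r (c i) (B i) (c j) (B j)) {Q : Set Plane}
    (hQ : ∀ x ∈ Q, ∃ i, x - c i ∈ B i) :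
    ∃ D : ι → Set Plane, Good Q D ∧ (∀ i, ∀ x ∈ D i, x - c i ∈ B i) ∧
      ∀ i j, i ≠ j → B i = closedBall 0 1 → B j = closedBall 0 1 → ∀ x ∈ D i,
        2 * fv (c j - c i) (x - c i) ≤ ‖c j - c i‖ ^ 2 := by
  have r0 : 0 < r := by linarith
  let V : ι → Set Plane := fun i => {x | gauge (B i) (x - c i) ≤ 1 ∧
    ∀ j, j ≠ i → gauge (B i) (x - c i) < gauge (B j) (x - c j)}
  have shrink : ∀ i x, gauge (B i) (x - c i) ≤ 1 →
      (∀ j, j ≠ i → gauge (B i) (x - c i) ≤ gauge (B j) (x - c j)) → ∀ s : ℝ, 0 ≤ s → s < 1 →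
      c i + s • (x - c i) ∈ V i := by
    intro i x h1 h2 s s0 s1
    have e : gauge (B i) (c i + s • (x - c i) - c i) = s * gauge (B i) (x - c i) := by
      rw [add_sub_cancel_left, gauge_smul_of_nonneg s0, smul_eq_mul]
    refine ⟨?_, fun j hj => ?_⟩
    · rw [e]; exact mul_le_one₀ s1.le (gauge_nonneg _) h1
    · rw [e]; exact (hp i j hj.symm).star r0 r1 (hB i) (hB j) h1 (h2 j hj) s0 s1
  have star : ∀ i, ∀ x ∈ V i, segment ℝ (c i) x ⊆ V i := by
    rintro i x hx _ ⟨t, s, t0, s0, hts, rfl⟩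
    rcases t0.eq_or_lt with rfl | t0
    · have : s = 1 := by linarith
      subst this
      simpa using hx
    · have := shrink i x hx.1 (fun j hj => (hx.2 j hj).le) s s0 (by linarith)
      have e : t = 1 - s := by linarith
      convert this using 1
      rw [e]; module
  have hull : ∀ i (S : Set Plane), IsClosed S → Convex ℝ S → V i ⊆ S →
      closure (convexHull ℝ (V i)) ⊆ S := fun i S h1 h2 h3 => closure_minimal (convexHull_min h3 h2) h1
  have cK : ∀ i, IsCompact {x | x - c i ∈ B i} := fun i =>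
    (Homeomorph.subRight (c i)).isCompact_preimage.2 (hB i).cpt
  have inK : ∀ i, closure (convexHull ℝ (V i)) ⊆ {x | x - c i ∈ B i} := fun i =>
    hull i _ (cK i).isClosed (fun x hx y hy a b ha hb hab => by
      have := (hB i).cvx hx hy ha hb hab
      have e : b = 1 - a := by linarith
      rw [mem_ofPred_eq]
      convert this using 1
      rw [e]; module)
      fun x hx => ((hB i).mem_iff r0).1 hx.1
  refine ⟨fun i => closure (convexHull ℝ (V i)), ⟨fun i => ⟨(cK i).of_isClosed_subset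
    isClosed_closure (inK i), (convex_convexHull ℝ _).closure⟩, fun i j hij => ?_, fun x hx => ?_⟩,
    inK, fun i j hij hi hj => ?_⟩
  · refine star_nc (star i) (star j) (Set.disjoint_left.2 fun x h1 h2 => ?_) fun k => ?_
    · linarith [h1.2 j hij.symm, h2.2 i hij]
    · have : fv (c j - c i) (c i) < fv (c j - c i) (c i) :=
        convexHull_min (fun x hx => (hp i j hij).out hr (hB i) (hB j) hx.1
          (hx.2 i hij)) (convex_half' (c j - c i) (fv (c j - c i) (c i))) k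
      exact lt_irrefl _ this
  · obtain ⟨k, hk⟩ := hQ x hx
    obtain ⟨i, -, hi⟩ := Finset.univ.exists_min_image (fun i => gauge (B i) (x - c i))
      ⟨k, Finset.mem_univ _⟩
    refine mem_iUnion.2 ⟨i, closure_mono (subset_convexHull ℝ _) ?_⟩
    have hc : Continuous fun s : ℝ => c i + s • (x - c i) := by fun_prop
    have hl : Filter.Tendsto (fun s : ℝ => c i + s • (x - c i)) (𝓝[<] 1) (𝓝 x) := by
      simpa using (hc.tendsto 1).mono_left (nhdsWithin_le_nhds (s := Iio 1))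
    refine mem_closure_of_tendsto hl ?_
    filter_upwards [Ioo_mem_nhdsLT zero_lt_one] with s hs
    exact shrink i x ((hi k (Finset.mem_univ _)).trans (((hB k).mem_iff r0).2 hk))
      (fun j _ => hi j (Finset.mem_univ _)) s hs.1.le hs.2
  · have := hull i {x | fv (c j - c i) x ≤ ‖c j - c i‖ ^ 2 / 2 + fv (c j - c i) (c i)}
      (isClosed_le (continuous_fv _) continuous_const) (convex_half_le _ _) fun x hx => by
        have k := hx.2 j hij.symm
        rw [hi, hj, gauge_one, gauge_one] at k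
        have k2 := pow_lt_pow_left₀ k (norm_nonneg _) two_ne_zero
        simp only [norm_sq_eq, fv, PiLp.sub_apply, mem_ofPred_eq] at k2 ⊢
        linarith
    intro x hx
    have k := this hx
    simp only [fv, PiLp.sub_apply, mem_ofPred_eq] at k ⊢
    linarith

/-- polygonal cells with at most six sides on average -/
theorem fat_polygons {r : ℝ} (hr : 1 / 2 ≤ r) (r1 : r ≤ 1) (c : ι → Plane) (B : ι → Set Plane)
    (hB : ∀ i, Fat r (B i)) (hp : ∀ i j, i ≠ j → Apart r (c i) (B i) (c j) (B j)) (o : Plane)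
    {L : ℝ} (hL : 0 < L) (hQ : ∀ x ∈ sq o L, ∃ i, x - c i ∈ B i) :
    ∃ S : ι → Finset (Plane × ℝ), ∃ I : Finset ι, (∀ i ∈ I, ∀ x ∈ poly (S i), x - c i ∈ B i) ∧
      (∀ i ∈ I, ∀ j, i ≠ j → B i = closedBall 0 1 → B j = closedBall 0 1 → ∀ x ∈ poly (S i),
        2 * fv (c j - c i) (x - c i) ≤ ‖c j - c i‖ ^ 2) ∧
      (∀ i, ∀ h ∈ S i, h.1 ≠ 0) ∧ ∑ i ∈ I, (S i).card ≤ 6 * (I.card + 2) ∧
      ENNReal.ofReal (4 * L ^ 2) ≤ ∑ i ∈ I, volume (poly (S i)) := by
  obtain ⟨D, h1, h2, h3⟩ := fat_good hr r1 c B hB hp hQ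
  obtain ⟨S, I, k1, k2, k3, k4⟩ := cell_polygons o hL h1
  exact ⟨S, I, fun i hi x hx => h2 i x (k1 i hi hx),
    fun i hi j hij e1 e2 x hx => h3 i j hij e1 e2 x (k1 i hi hx), k2, k3, k4⟩

end Pool.Agent.Lib.MP_fb520c_co.Cov
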