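import Pool.Agent.Lib.MP_fb520c_co.Cov.Fat

/-! The local covering bound: close copies are replaced by unit circles. -/

set_option autoImplicit false

open Set MeasureTheory Metric

noncomputable section

namespace Pool.Agent.Lib.MP_fb520c_co.Cov

lemma Fat.image {r : ℝ} {C : Set Plane} (hC : Fat r C) (f : Plane ≃ₗᵢ[ℝ] Plane) : Fat r (f '' C) where
  cpt := hC.cpt.image f.continuous
  cvx := hC.cvx.linear_image f.toLinearEquiv.toLinearMap
  low x hx := ⟨f.symm x, hC.low (by simpa using hx), by simp⟩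
  up := by
    rintro _ ⟨y, hy, rfl⟩
    simpa using hC.up hy

theorem cov_local {C : Set Plane} {r c h lam : ℝ} (hC : Fat r C) (hr : 1 / 2 ≤ r) (r1 : r ≤ 1)
    (hc0 : 0 ≤ c) (hc : 1 - r ^ 2 ≤ c ^ 2) (l0 : 0 ≤ lam) (l6 : 6 * lam ≤ h)
    (hb : ∀ S : Finset (Plane × ℝ), (∀ y ∈ S, y.1 ≠ 0) →
      (∀ g : Plane ≃ᵢ Plane, poly S ⊆ g '' C →
        volume (poly S) ≤ ENNReal.ofReal (h + lam * (S.card - 6))) ∧
      (∀ a e : Plane, ‖e‖ = 1 → poly S ⊆ closedBall a 1 ∩ {z | fv e (z - a) ≤ c} →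
        volume (poly S) ≤ ENNReal.ofReal (h + lam * (S.card - 6))) ∧
      (∀ a : Plane, poly S ⊆ closedBall a 1 →
        volume (poly S) ≤ ENNReal.ofReal (2 * h + lam * (S.card - 6))))
    (ι : Type) [Fintype ι] (g : ι → Plane ≃ᵢ Plane) (o : Plane) (L : ℝ) (hL : 0 < L)
    (hcov : ∀ z ∈ sq o L, ∃ i, z ∈ g i '' C) :
    4 * L ^ 2 ≤ Fintype.card ι * h + 12 * lam := by
  classical
  let K : Finset Plane := Finset.univ.image fun i => g i 0
  have hK : ∀ i, g i 0 ∈ K := fun i => Finset.mem_image_of_mem _ (Finset.mem_univ i)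
  have hρ : ∀ a : K, ∃ i, g i 0 = a := fun a => by
    obtain ⟨i, -, hi⟩ := Finset.mem_image.1 a.2
    exact ⟨i, hi⟩
  choose ρ hρ using hρ
  let close : K → Prop := fun a => ∃ i, i ≠ ρ a ∧ ‖g i 0 - a‖ ^ 2 ≤ 4 * (1 - r ^ 2)
  let B : K → Set Plane := fun a =>
    if close a then closedBall 0 1 else (g (ρ a)).toRealLinearIsometryEquiv '' C
  have eB : ∀ a, close a → B a = closedBall 0 1 := fun a h => if_pos h
  have eN : ∀ a, ¬ close a → B a = (g (ρ a)).toRealLinearIsometryEquiv '' C := fun a h => if_neg h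
  have cl : ∀ a b : K, a ≠ b → ‖(b : Plane) - a‖ ^ 2 ≤ 4 * (1 - r ^ 2) → close a := fun a b hab h =>
    ⟨ρ b, fun e => hab (Subtype.ext (by rw [← hρ a, ← hρ b, e])), by rwa [hρ]⟩
  have q0 : 0 ≤ 1 - r ^ 2 := by nlinarith
  obtain ⟨S, I, k1, k2, k3, k4, k5⟩ := fat_polygons hr r1 (fun a : K => (a : Plane)) B
    (fun a => by
      by_cases h : close a
      · rw [eB a h]; exact fat_ball r1
      · rw [eN a h]; exact hC.image _)
    (fun a b hab => by
      rcases le_or_gt (‖(b : Plane) - a‖ ^ 2) (4 * (1 - r ^ 2)) with h | h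
      · exact Or.inl ⟨eB a (cl a b hab h), eB b (cl b a hab.symm (by rwa [norm_sub_rev])),
          fun e => hab (Subtype.ext e)⟩
      · exact Or.inr h) o hL
    (fun x hx => by
      obtain ⟨i, hi⟩ := hcov x hx
      refine ⟨⟨g i 0, hK i⟩, ?_⟩
      by_cases h : close ⟨g i 0, hK i⟩
      · rw [eB _ h]
        exact mem_closedBall_zero_iff.2
          (norm_sub_le_of_mem (fun z hz => mem_closedBall_zero_iff.1 (hC.up hz)) _ hi)
      · have e : i = ρ ⟨g i 0, hK i⟩ := by_contra fun k => h ⟨i, k, by simpa using q0⟩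
        rw [eN _ h, ← e]
        obtain ⟨y, hy, rfl⟩ := hi
        exact ⟨y, hy, by rw [isometry_apply (g i) y, add_sub_cancel_right]⟩)
  let m : Plane → ℕ := fun a => (Finset.univ.filter fun i => g i 0 = a).card
  have m1 : ∀ a : K, 1 ≤ m a := fun a =>
    Finset.card_pos.2 ⟨ρ a, Finset.mem_filter.2 ⟨Finset.mem_univ _, hρ a⟩⟩
  have h0 : 0 ≤ h := by linarith
  have bound : ∀ a ∈ I, volume (poly (S a)) ≤
      ENNReal.ofReal (m a * h + lam * ((S a).card - 6)) := by
    intro a ha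
    have mono : ∀ k : ℕ, k ≤ m a → ENNReal.ofReal (k * h + lam * ((S a).card - 6)) ≤
        ENNReal.ofReal (m a * h + lam * ((S a).card - 6)) := fun k hk =>
      ENNReal.ofReal_le_ofReal (by
        have : (k : ℝ) ≤ m a := by exact_mod_cast hk
        linarith [mul_le_mul_of_nonneg_right this h0])
    obtain ⟨b1, b2, b3⟩ := hb (S a) (k3 a)
    by_cases h : close a
    · have hball : poly (S a) ⊆ closedBall (a : Plane) 1 := fun x hx => by
        have := k1 a ha x hx
        rw [eB a h] at this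
        rw [mem_closedBall, dist_eq_norm]
        exact mem_closedBall_zero_iff.1 this
      obtain ⟨i, hi, hd⟩ := id h
      by_cases e : g i 0 = a
      · refine (b3 a hball).trans ?_
        have : 2 ≤ m a := Finset.one_lt_card.2 ⟨i, Finset.mem_filter.2 ⟨Finset.mem_univ _, e⟩, ρ a,
          Finset.mem_filter.2 ⟨Finset.mem_univ _, hρ a⟩, hi⟩
        simpa using mono 2 this
      · have hab : a ≠ ⟨g i 0, hK i⟩ := fun k => e (by rw [k])
        have hn : 0 < ‖g i 0 - a‖ := norm_pos_iff.2 (sub_ne_zero.2 e)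
        refine (b2 a (‖g i 0 - a‖⁻¹ • (g i 0 - a)) (by
          rw [norm_smul, norm_inv, norm_norm, inv_mul_cancel₀ hn.ne']) fun x hx =>
            ⟨hball hx, ?_⟩).trans (by simpa using mono 1 (m1 a))
        have k := k2 a ha _ hab (eB a h) (eB _ (cl _ a hab.symm (by rwa [norm_sub_rev]))) x hx
        have k' : ‖g i 0 - a‖ ≤ 2 * c :=
          (abs_le_of_sq_le_sq' (by linarith) (by linarith)).2
        have e2 : fv (‖g i 0 - a‖⁻¹ • (g i 0 - a)) (x - a) =
            ‖g i 0 - a‖⁻¹ * fv (g i 0 - a) (x - a) := by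
          simp only [fv, PiLp.smul_apply, smul_eq_mul]; ring
        rw [mem_ofPred_eq, e2, inv_mul_le_iff₀ hn]
        simp only at k
        nlinarith
    · refine (b1 (g (ρ a)) fun x hx => ?_).trans (by simpa using mono 1 (m1 a))
      have := k1 a ha x hx
      rw [eN a h] at this
      obtain ⟨y, hy, e⟩ := this
      exact ⟨y, hy, by rw [isometry_apply, e, hρ, sub_add_cancel]⟩
  have nn : ∀ a ∈ I, 0 ≤ m a * h + lam * (((S a).card : ℝ) - 6) := fun a _ => by
    have : (1 : ℝ) ≤ m a := by exact_mod_cast m1 a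
    linarith [mul_le_mul_of_nonneg_right this h0, mul_nonneg l0 (Nat.cast_nonneg (α := ℝ) (S a).card)]
  have := k5.trans (Finset.sum_le_sum bound)
  rw [← ENNReal.ofReal_sum_of_nonneg nn, ENNReal.ofReal_le_ofReal_iff (Finset.sum_nonneg nn),
    Finset.sum_add_distrib, ← Finset.sum_mul, ← Finset.mul_sum, Finset.sum_sub_distrib,
    Finset.sum_const, nsmul_eq_mul, ← Nat.cast_sum, ← Nat.cast_sum] at this
  have c1 : ((∑ a ∈ I, m a : ℕ) : ℝ) ≤ Fintype.card ι := by
    have e : Fintype.card ι = ∑ a : K, m a := by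
      rw [Finset.sum_coe_sort K m]
      exact Finset.card_eq_sum_card_image _ _
    rw [e]
    exact_mod_cast Finset.sum_le_sum_of_subset (Finset.subset_univ I)
  have c2 : ((∑ a ∈ I, (S a).card : ℕ) : ℝ) ≤ 6 * (I.card + 2) := by exact_mod_cast k4
  linarith [mul_le_mul_of_nonneg_right c1 h0, mul_le_mul_of_nonneg_left c2 l0]

end Pool.Agent.Lib.MP_fb520c_co.Cov
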