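import Pool.Agent.Lib.MP_fb520c_co.Cov.Local
import Pool.Agent.Lib.MP_fb520c_co.H33.CellBounds
import Pool.Agent.Lib.MP_fb520c_co.Fat.Dens

/-! The covering density of a fat symmetric body. -/

set_option autoImplicit false

open Set MeasureTheory Metric Real

noncomputable section

namespace Pool.Agent.Lib.MP_fb520c_co

/-- The covering density of a fat symmetric body is at least its area over `h`. -/
theorem Sym0.fat_le_cd {C : Set Plane} (hC : Sym0 C) {r h f c : ℝ} (h0 : closedBall 0 r ⊆ C)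
    (h1 : C ⊆ closedBall 0 1) (hr : 1 / 2 ≤ r) (r1 : r ≤ 1) (hrc : 1 - r ^ 2 ≤ c ^ 2)
    (hh : ∀ u ∈ C, ∀ v ∈ C, ∀ t ∈ C, hform u v t ≤ h) {P0 P1 P2 P3 P4 : Plane}
    (m0 : P0 ∈ C) (m1 : P1 ∈ C) (m2 : P2 ∈ C) (m3 : P3 ∈ C) (m4 : P4 ∈ C)
    (s0 : P0 1 < 0) (s1 : P1 1 < 0) (s2 : 0 < P2 1) (s3 : 0 < P3 1) (s4 : 0 < P4 1)
    (d0 : 0 < dt P0 P1) (d1 : 0 < dt P1 P2) (d2 : 0 < dt P2 P3) (d3 : 0 < dt P3 P4)
    (d4 : 0 < dt P4 P0) (hf : 2 * f ≤ dt P0 P1 + dt P1 P2 + dt P2 P3 + dt P3 P4 + dt P4 P0)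
    (hc : 0 ≤ c) (n5 : π / 2 + 2 * c ≤ f) (n4 : 2 + h ≤ 2 * f) (n3 : π / 2 + 2 * h ≤ 3 * f)
    (n0 : 5 * h ≤ 6 * f) (hp : 0 < h) : ENNReal.ofReal ((volume C).toReal / h) ≤ cd C := by
  obtain ⟨lam, l0, l6, hb⟩ := hC.cell_bounds h1 hh m0 m1 m2 m3 m4 s0 s1 s2 s3 s4 d0 d1 d2 d3 d4 hf
    hc n5 n4 n3 n0
  exact le_iInf₂ fun _ k => dens hC.cpt hC.volume_ne one_pos
    (fun z hz => mem_closedBall_zero_iff.1 (h1 hz)) hp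
    (Cov.cov_local ⟨hC.cpt, hC.cvx, h0, h1⟩ hr r1 hc hrc l0 l6 hb) k.1 k.2

end Pool.Agent.Lib.MP_fb520c_co
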